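import Mathlib

set_option autoImplicit false

namespace Pool.Agent.Results.MP_360cb4_gt.NotDetermined

open Set Filter Topology Cardinal

/-! ### Definitions of the problem -/

/-- `s` is an upper set for the specialization order (`x ≤ y` iff `x` is in the closure of `y`). -/
def Saturated {X : Type} [TopologicalSpace X] (s : Set X) : Prop :=
  ∀ x ∈ s, ∀ y : X, x ∈ closure {y} → y ∈ s

/-- The points of the Smyth power space: nonempty compact saturated subsets. -/
def PS (X : Type) [TopologicalSpace X] : Type :=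
  {K : Set X // K.Nonempty ∧ IsCompact K ∧ Saturated K}

/-- the family of the sets Box U -/
def boxes (X : Type) [TopologicalSpace X] : Set (Set (PS X)) :=
  {s | ∃ U : Set X, IsOpen U ∧ s = {K | K.1 ⊆ U}}

/-- The upper Vietoris topology. -/
instance PStop (X : Type) [TopologicalSpace X] : TopologicalSpace (PS X) :=
  TopologicalSpace.generateFrom (boxes X)

/-- A class of spaces. -/
abbrev SpaceClass : Type 1 := (X : Type) → TopologicalSpace X → Prop

/-- `A` is `K`-determined. -/
def KDet (𝒦 : SpaceClass) {X : Type} [TopologicalSpace X] (A : Set X) : Prop :=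
  ∀ (Y : Type) [tY : TopologicalSpace Y], 𝒦 Y tY → ∀ f : X → Y, Continuous f →
    ∃! y : Y, closure (f '' A) = closure {y}

/-- The set `K(X)` of closed `K`-determined subsets of `X`. -/
def KSets (𝒦 : SpaceClass) (X : Type) [TopologicalSpace X] : Type :=
  {A : Set X // IsClosed A ∧ KDet 𝒦 A}

/-- the family of the sets Diamond U -/
def diamonds (𝒦 : SpaceClass) (X : Type) [TopologicalSpace X] : Set (Set (KSets 𝒦 X)) :=
  {s | ∃ U : Set X, IsOpen U ∧ s = {A | (A.1 ∩ U).Nonempty}}

/-- The space `P_H(K(X))`. -/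
instance KStop (𝒦 : SpaceClass) (X : Type) [TopologicalSpace X] : TopologicalSpace (KSets 𝒦 X) :=
  TopologicalSpace.generateFrom (diamonds 𝒦 X)

/-- `𝒦` is (the object class of) a full subcategory of the category of `T0` spaces, closed under
homeomorphism, that contains all sober spaces. -/
def IsCategory (𝒦 : SpaceClass) : Prop :=
  (∀ (X : Type) [tX : TopologicalSpace X], 𝒦 X tX → T0Space X) ∧
  (∀ (X Y : Type) [tX : TopologicalSpace X] [tY : TopologicalSpace Y],
    Nonempty (X ≃ₜ Y) → 𝒦 X tX → 𝒦 Y tY) ∧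
  (∀ (X : Type) [tX : TopologicalSpace X], T0Space X → QuasiSober X → 𝒦 X tX)

/-- `𝒦` is adequate. -/
def Adequate (𝒦 : SpaceClass) : Prop :=
  ∀ (X : Type) [TopologicalSpace X], T0Space X → 𝒦 (KSets 𝒦 X) (KStop 𝒦 X)

/-- `𝒦` is a Smyth category. -/
def SmythCategory (𝒦 : SpaceClass) : Prop :=
  ∀ (X : Type) [tX : TopologicalSpace X], 𝒦 X tX → 𝒦 (PS X) (PStop X)

/-- `X` is `K`-determined: the irreducible closed sets are exactly the closed `K`-determined
sets. -/
def Determined (𝒦 : SpaceClass) (X : Type) [TopologicalSpace X] : Prop :=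
  ∀ A : Set X, IsClosed A → (IsIrreducible A ↔ KDet 𝒦 A)

/-! ### Auxiliary facts -/

theorem gen {Y E : Type} (S : Set (Set Y)) (t : TopologicalSpace Y)
    (ht : t = TopologicalSpace.generateFrom S) (L : Filter E) [L.NeBot] (g : E → Y) (p : Y)
    (h1 : ∀ V ∈ S, p ∈ V → ∀ᶠ a in L, g a ∈ V) (h2 : ∀ V ∈ S, ∀ a, g a ∈ V → p ∈ V) :
    closure (range g) = closure {p} := by
  subst ht
  let _ := TopologicalSpace.generateFrom S
  apply Set.Subset.antisymm
  · apply closure_minimal _ isClosed_closure
    rintro _ ⟨a, rfl⟩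
    rw [← specializes_iff_mem_closure, specializes_iff_pure]
    have h3 : Tendsto (fun _ : Unit => p) (pure ()) (𝓝 (g a)) := by
      apply TopologicalSpace.tendsto_nhds_generateFrom_iff.2
      intro s hs has
      simpa using h2 s hs a has
    rw [Tendsto, Filter.map_pure] at h3
    exact h3
  · apply closure_minimal _ isClosed_closure
    rw [singleton_subset_iff]
    have h3 : Tendsto g L (𝓝 p) := by
      apply TopologicalSpace.tendsto_nhds_generateFrom_iff.2
      intro s hs has
      exact h1 s hs has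
    exact mem_closure_of_tendsto h3 (Eventually.of_forall (fun a => mem_range_self a))

theorem t0_unique {Y : Type} [TopologicalSpace Y] [T0Space Y] {y z : Y}
    (h : closure ({y} : Set Y) = closure {z}) : y = z := by
  apply Inseparable.eq
  rw [inseparable_iff_closure_eq]
  exact h

theorem gen_t0 {Y : Type} (S : Set (Set Y)) (t : TopologicalSpace Y)
    (ht : t = TopologicalSpace.generateFrom S)
    (h : ∀ x y : Y, (∀ V ∈ S, x ∈ V ↔ y ∈ V) → x = y) : T0Space Y := by
  subst ht
  let _ := TopologicalSpace.generateFrom S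
  constructor
  intro x y hxy
  apply h
  intro V hV
  exact hxy.mem_open_iff (TopologicalSpace.isOpen_generateFrom_of_mem hV)

noncomputable section

def cc (i : ℕ) : Cardinal.{0} := Cardinal.aleph (Order.succ (i : Ordinal.{0}))

theorem cc_reg (i : ℕ) : (cc i).IsRegular := Cardinal.isRegular_aleph_succ _

theorem cc_lt {i j : ℕ} (h : i < j) : cc i < cc j := by
  unfold cc
  rw [Cardinal.aleph_lt_aleph]
  apply Order.succ_lt_succ
  exact_mod_cast h

theorem aleph0_lt_cc (i : ℕ) : ℵ₀ < cc i := by
  unfold cc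
  rw [← Cardinal.aleph_zero, Cardinal.aleph_lt_aleph]
  exact Order.bot_lt_succ _

def E (i : ℕ) : Type := (cc i).out

theorem mk_E (i : ℕ) : #(E i) = cc i := Cardinal.mk_out _

def L (i : ℕ) : Filter (E i) := Filter.cocardinal (E i) (cc_reg i)

instance (i : ℕ) : CardinalInterFilter (L i) (cc i) := by
  unfold L; infer_instance

theorem mem_L {i : ℕ} {s : Set (E i)} : s ∈ L i ↔ #(sᶜ : Set (E i)) < cc i := Iff.rfl

instance (i : ℕ) : (L i).NeBot := by
  constructor
  intro h
  have h1 : (∅ : Set (E i)) ∈ L i := by rw [h]; exact Filter.mem_bot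
  rw [mem_L, compl_empty, Cardinal.mk_univ, mk_E] at h1
  exact lt_irrefl _ h1

/-- convergence to all of its values -/
def DD {Y : Type} [TopologicalSpace Y] (i : ℕ) (f : E i → Y) : Prop :=
  ∀ a, Tendsto f (L i) (𝓝 (f a))

/-- The category of the counterexample. -/
def kk : SpaceClass := fun Y tY => T0Space Y ∧
  ∀ (i : ℕ) (f : E i → Y), (∀ a, Tendsto f (L i) (@nhds Y tY (f a))) →
    ∃ y : Y, @closure Y tY (range f) = @closure Y tY {y}

theorem kk_category : IsCategory kk := by
  refine ⟨fun X tX h => h.1, ?_, ?_⟩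
  · rintro X Y tX tY ⟨e⟩ ⟨h0, h⟩
    refine ⟨e.symm.isEmbedding.t0Space, ?_⟩
    intro i f hf
    obtain ⟨y, hy⟩ := h i (fun a => e.symm (f a)) (fun a =>
      (e.symm.continuous.tendsto _).comp (hf a))
    refine ⟨e y, ?_⟩
    have h1 := congrArg (fun s => e '' s) hy
    simp only [e.image_closure] at h1
    have h2 : (e '' range fun a => e.symm (f a)) = range f := by
      ext z; simp
    rw [h2, image_singleton] at h1
    exact h1
  · intro X tX h0 hs
    refine ⟨h0, ?_⟩
    intro i f hf
    have hir : IsIrreducible (range f) := by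
      obtain ⟨a0⟩ : Nonempty (E i) := by
        obtain ⟨s, -⟩ := (L i).nonempty_of_mem (Filter.univ_mem)
        exact ⟨s⟩
      refine ⟨⟨f a0, a0, rfl⟩, ?_⟩
      rintro U V hU hV ⟨_, ⟨a, rfl⟩, ha⟩ ⟨_, ⟨b, rfl⟩, hb⟩
      have h1 : ∀ᶠ c in L i, f c ∈ U := hf a (hU.mem_nhds ha)
      have h2 : ∀ᶠ c in L i, f c ∈ V := hf b (hV.mem_nhds hb)
      obtain ⟨c, hc1, hc2⟩ := (h1.and h2).exists
      exact ⟨f c, ⟨c, rfl⟩, hc1, hc2⟩
    obtain ⟨y, hy⟩ := QuasiSober.sober hir.closure isClosed_closure
    exact ⟨y, hy.symm⟩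

theorem kk_adequate : Adequate kk := by
  intro X _ h0
  constructor
  · apply gen_t0 (diamonds kk X) _ rfl
    intro A B hAB
    apply Subtype.ext
    apply Set.Subset.antisymm
    · intro x hx
      by_contra hxB
      have h1 := (hAB {C | (C.1 ∩ B.1ᶜ).Nonempty} ⟨B.1ᶜ, B.2.1.isOpen_compl, rfl⟩).1 ⟨x, hx, hxB⟩
      obtain ⟨z, hz1, hz2⟩ := h1
      exact hz2 hz1
    · intro x hx
      by_contra hxA
      have h1 := (hAB {C | (C.1 ∩ A.1ᶜ).Nonempty} ⟨A.1ᶜ, A.2.1.isOpen_compl, rfl⟩).2 ⟨x, hx, hxA⟩
      obtain ⟨z, hz1, hz2⟩ := h1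
      exact hz2 hz1
  · intro i g hg
    -- membership along the filter
    have hD : ∀ U : Set X, IsOpen U → ∀ a, ((g a).1 ∩ U).Nonempty →
        ∀ᶠ b in L i, ((g b).1 ∩ U).Nonempty := by
      intro U hU a ha
      have ho : IsOpen {A : KSets kk X | (A.1 ∩ U).Nonempty} :=
        TopologicalSpace.isOpen_generateFrom_of_mem ⟨U, hU, rfl⟩
      exact hg a (ho.mem_nhds ha)
    let B0 : Set X := closure (⋃ a, (g a).1)
    have hB0 : KDet kk B0 := by
      intro Y tY hY f hf
      have := hY.1
      have hα : ∀ a, ∃ y, closure (f '' (g a).1) = closure {y} := fun a =>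
        ((g a).2.2 Y hY f hf).exists
      choose y hy using hα
      have hDy : ∀ a, Tendsto y (L i) (𝓝 (y a)) := by
        intro a
        rw [tendsto_nhds]
        intro V hV hyV
        -- (g a) meets the preimage of V
        have key : ∀ b, ((g b).1 ∩ f ⁻¹' V).Nonempty ↔ y b ∈ V := by
          intro b
          constructor
          · rintro ⟨x, hx, hxV⟩
            have h1 : f x ∈ closure {y b} := by
              rw [← hy b]; exact subset_closure ⟨x, hx, rfl⟩
            obtain ⟨z, hz1, hz2⟩ := mem_closure_iff.1 h1 V hV hxV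
            rw [mem_singleton_iff] at hz2
            rwa [hz2] at hz1
          · intro hb
            have h1 : y b ∈ closure (f '' (g b).1) := by
              rw [hy b]; exact subset_closure rfl
            obtain ⟨z, hz1, ⟨x, hx, rfl⟩⟩ := mem_closure_iff.1 h1 V hV hb
            exact ⟨x, hx, hz1⟩
        have h2 := hD (f ⁻¹' V) (hV.preimage hf) a ((key a).2 hyV)
        filter_upwards [h2] with b hb
        exact (key b).1 hb
      obtain ⟨z, hz⟩ := hY.2 i y hDy
      refine ⟨z, ?_, ?_⟩
      · change closure (f '' B0) = closure {z}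
        rw [← hz]
        apply Set.Subset.antisymm
        · apply closure_minimal _ isClosed_closure
          refine (image_closure_subset_closure_image hf).trans ?_
          apply closure_minimal _ isClosed_closure
          rw [image_iUnion]
          apply iUnion_subset
          intro a
          have h1 : f '' (g a).1 ⊆ closure {y a} := by
            rw [← hy a]; exact subset_closure
          refine h1.trans ?_
          apply closure_minimal _ isClosed_closure
          rw [singleton_subset_iff]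
          exact subset_closure ⟨a, rfl⟩
        · apply closure_minimal _ isClosed_closure
          rintro _ ⟨a, rfl⟩
          have h1 : y a ∈ closure (f '' (g a).1) := by
            rw [hy a]; exact subset_closure rfl
          refine closure_mono ?_ h1
          apply image_mono
          exact (subset_iUnion (fun a => (g a).1) a).trans subset_closure
      · intro w hw
        apply t0_unique
        rw [← hw]
        change closure (f '' B0) = closure {z}
        rw [← hz]
        apply Set.Subset.antisymm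
        · apply closure_minimal _ isClosed_closure
          refine (image_closure_subset_closure_image hf).trans ?_
          apply closure_minimal _ isClosed_closure
          rw [image_iUnion]
          apply iUnion_subset
          intro a
          have h1 : f '' (g a).1 ⊆ closure {y a} := by
            rw [← hy a]; exact subset_closure
          refine h1.trans ?_
          apply closure_minimal _ isClosed_closure
          rw [singleton_subset_iff]
          exact subset_closure ⟨a, rfl⟩
        · apply closure_minimal _ isClosed_closure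
          rintro _ ⟨a, rfl⟩
          have h1 : y a ∈ closure (f '' (g a).1) := by
            rw [hy a]; exact subset_closure rfl
          refine closure_mono ?_ h1
          apply image_mono
          exact (subset_iUnion (fun a => (g a).1) a).trans subset_closure
    refine ⟨⟨B0, isClosed_closure, hB0⟩, ?_⟩
    apply gen (diamonds kk X) _ rfl (L i)
    · rintro _ ⟨U, hU, rfl⟩ hB
      obtain ⟨x, hx, hxU⟩ := hB
      obtain ⟨z, hz1, hz2⟩ := mem_closure_iff.1 hx U hU hxU
      rw [mem_iUnion] at hz2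
      obtain ⟨a, ha⟩ := hz2
      exact hD U hU a ⟨z, ha, hz1⟩
    · rintro _ ⟨U, hU, rfl⟩ a ⟨x, hx, hxU⟩
      exact ⟨x, subset_closure (mem_iUnion.2 ⟨a, hx⟩), hxU⟩

theorem kk_smyth : SmythCategory kk := by
  intro X tX hX
  have h0 := hX.1
  have hsat : ∀ K : PS X, ∀ x, x ∉ K.1 → K.1 ⊆ (closure {x})ᶜ := by
    intro K x hx y hy hyx
    exact hx (K.2.2.2 y hy x hyx)
  constructor
  · apply gen_t0 (boxes X) _ rfl
    intro K K' hKK
    apply Subtype.ext
    apply Set.Subset.antisymm
    · intro x hx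
      by_contra hx'
      have h1 := (hKK {C | C.1 ⊆ (closure {x})ᶜ} ⟨_, isClosed_closure.isOpen_compl, rfl⟩).2
        (hsat K' x hx')
      exact h1 hx (subset_closure rfl)
    · intro x hx
      by_contra hx'
      have h1 := (hKK {C | C.1 ⊆ (closure {x})ᶜ} ⟨_, isClosed_closure.isOpen_compl, rfl⟩).1
        (hsat K x hx')
      exact h1 hx (subset_closure rfl)
  · intro i g hg
    have hD : ∀ U : Set X, IsOpen U → ∀ a, (g a).1 ⊆ U → ∀ᶠ b in L i, (g b).1 ⊆ U := by
      intro U hU a ha
      have ho : IsOpen {A : PS X | A.1 ⊆ U} :=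
        TopologicalSpace.isOpen_generateFrom_of_mem ⟨U, hU, rfl⟩
      exact hg a (ho.mem_nhds ha)
    let UU : Set (Set X) := {U | IsOpen U ∧ ∃ a, (g a).1 ⊆ U}
    let Q : Set X := ⋂₀ UU
    have claim : ∀ U : Set X, IsOpen U → Q ⊆ U → ∃ a, (g a).1 ⊆ U := by
      intro U hU hQU
      by_contra hcon
      push Not at hcon
      have hne : ∀ a, ((g a).1 ∩ Uᶜ).Nonempty := by
        intro a
        obtain ⟨x, hx, hxU⟩ := Set.not_subset.1 (hcon a)
        exact ⟨x, hx, hxU⟩
      let S : Set (Set X) := {A | IsClosed A ∧ A ⊆ Uᶜ ∧ ∀ a, ((g a).1 ∩ A).Nonempty}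
      obtain ⟨A, hA⟩ := zorn_superset S (by
        intro c hcS hc
        rcases c.eq_empty_or_nonempty with h | h
        · subst h
          exact ⟨Uᶜ, ⟨hU.isClosed_compl, subset_rfl, hne⟩, by simp⟩
        · have : Nonempty c := h.to_subtype
          refine ⟨⋂₀ c, ⟨isClosed_sInter (fun A hA => (hcS hA).1), ?_, ?_⟩,
            fun s hs => sInter_subset_of_mem hs⟩
          · obtain ⟨A, hA⟩ := h
            exact (sInter_subset_of_mem hA).trans (hcS hA).2.1
          · intro a
            rw [sInter_eq_iInter]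
            apply (g a).2.2.1.inter_iInter_nonempty (fun A : c => (A : Set X))
              (fun A => (hcS A.2).1)
            intro u
            have hdir : Directed (fun s t : Set X => t ⊆ s) (fun A : c => (A : Set X)) := by
              intro A B
              rcases hc.total A.2 B.2 with h1 | h1
              · exact ⟨A, subset_rfl, h1⟩
              · exact ⟨B, h1, subset_rfl⟩
            obtain ⟨z, hz⟩ := hdir.finset_le u
            obtain ⟨x, hx, hxz⟩ := (hcS z.2).2.2 a
            refine ⟨x, hx, ?_⟩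
            simp only [mem_iInter]
            intro B hB
            exact hz B hB hxz)
      have hAS : A ∈ S := hA.prop
      choose x hx using hAS.2.2
      have hDx : ∀ a, Tendsto x (L i) (𝓝 (x a)) := by
        intro a
        rw [tendsto_nhds]
        intro V hV hxV
        have hnot : ¬ (A ∩ Vᶜ) ∈ S := by
          intro hin
          have h1 := hA.le_of_le hin inter_subset_left
          exact (h1 (hx a).2).2 hxV
        have h2 : ∃ b, ¬ ((g b).1 ∩ (A ∩ Vᶜ)).Nonempty := by
          by_contra h3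
          push Not at h3
          exact hnot ⟨hAS.1.inter hV.isClosed_compl, inter_subset_left.trans hAS.2.1, h3⟩
        obtain ⟨b, hb⟩ := h2
        have h4 : (g b).1 ⊆ (A ∩ Vᶜ)ᶜ := by
          intro z hz hz2
          exact hb ⟨z, hz, hz2⟩
        have h5 := hD _ (hAS.1.inter hV.isClosed_compl).isOpen_compl b h4
        filter_upwards [h5] with c hc
        by_contra hcV
        exact hc (hx c).1 ⟨(hx c).2, hcV⟩
      obtain ⟨y, hy⟩ := hX.2 i x hDx
      have hyA : y ∈ A := by
        have h1 : y ∈ closure (range x) := by rw [hy]; exact subset_closure rfl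
        refine (closure_minimal ?_ hAS.1) h1
        rintro _ ⟨a, rfl⟩
        exact (hx a).2
      apply hAS.2.1 hyA
      apply hQU
      rintro W ⟨hW, a, ha⟩
      have h1 : x a ∈ closure {y} := by rw [← hy]; exact subset_closure ⟨a, rfl⟩
      obtain ⟨z, hz1, hz2⟩ := mem_closure_iff.1 h1 W hW (ha (hx a).1)
      rw [mem_singleton_iff] at hz2
      rwa [hz2] at hz1
    have hQne : Q.Nonempty := by
      by_contra h
      rw [Set.not_nonempty_iff_eq_empty] at h
      obtain ⟨a, ha⟩ := claim ∅ isOpen_empty (by rw [h])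
      obtain ⟨x, hx⟩ := (g a).2.1
      exact ha hx
    have hQc : IsCompact Q := by
      rw [isCompact_iff_finite_subcover]
      intro ι V hV hQV
      obtain ⟨a, ha⟩ := claim _ (isOpen_iUnion hV) hQV
      obtain ⟨t, ht⟩ := (g a).2.2.1.elim_finite_subcover V hV ha
      refine ⟨t, ?_⟩
      intro x hx
      exact hx _ ⟨isOpen_biUnion (fun j _ => hV j), a, ht⟩
    have hQs : Saturated Q := by
      rintro x hx y hxy W ⟨hW, a, ha⟩
      have h1 : x ∈ W := hx W ⟨hW, a, ha⟩
      obtain ⟨z, hz1, hz2⟩ := mem_closure_iff.1 hxy W hW h1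
      rw [mem_singleton_iff] at hz2
      rwa [hz2] at hz1
    refine ⟨⟨Q, hQne, hQc, hQs⟩, ?_⟩
    apply gen (boxes X) _ rfl (L i)
    · rintro _ ⟨U, hU, rfl⟩ hQU
      obtain ⟨a, ha⟩ := claim U hU hQU
      exact hD U hU a ha
    · rintro _ ⟨U, hU, rfl⟩ a ha
      intro x hx
      exact hx U ⟨hU, a, ha⟩

/-! ### The space of the counterexample -/

inductive XX : Type
  | b : XX
  | pt (i : ℕ) (e : E i) : XX

open XX

instance : TopologicalSpace XX where
  IsOpen U := (∀ (i : ℕ) (e0 : E i), pt i e0 ∈ U → ∀ᶠ e in L i, pt i e ∈ U) ∧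
    (b ∈ U → ∃ n : ℕ, ∀ i, n ≤ i → ∀ e, pt i e ∈ U)
  isOpen_univ := ⟨fun i e0 _ => Eventually.of_forall (fun _ => trivial), fun _ => ⟨0, fun i _ e => trivial⟩⟩
  isOpen_inter := by
    rintro U V ⟨h1, h2⟩ ⟨h3, h4⟩
    refine ⟨fun i e0 h => (h1 i e0 h.1).and (h3 i e0 h.2), ?_⟩
    rintro ⟨hb1, hb2⟩
    obtain ⟨n, hn⟩ := h2 hb1
    obtain ⟨m, hm⟩ := h4 hb2
    exact ⟨max n m, fun i hi e => ⟨hn i ((le_max_left _ _).trans hi) e,
      hm i ((le_max_right _ _).trans hi) e⟩⟩
  isOpen_sUnion := by
    intro S hS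
    constructor
    · rintro i e0 ⟨U, hU, he⟩
      filter_upwards [(hS U hU).1 i e0 he] with e he'
      exact ⟨U, hU, he'⟩
    · rintro ⟨U, hU, hb⟩
      obtain ⟨n, hn⟩ := (hS U hU).2 hb
      exact ⟨n, fun i hi e => ⟨U, hU, hn i hi e⟩⟩

theorem XX_open {U : Set XX} : IsOpen U ↔
    (∀ (i : ℕ) (e0 : E i), pt i e0 ∈ U → ∀ᶠ e in L i, pt i e ∈ U) ∧
    (b ∈ U → ∃ n : ℕ, ∀ i, n ≤ i → ∀ e, pt i e ∈ U) := Iff.rfl

/-- complements of small parts of one piece are open -/
theorem XX_compl {i : ℕ} (T : Set (E i)) (hT : #T < cc i) : IsOpen ((pt i '' T)ᶜ : Set XX) := by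
  rw [XX_open]
  constructor
  · intro j e0 _
    by_cases hij : j = i
    · subst hij
      have h1 : Tᶜ ∈ L j := by rw [mem_L, compl_compl]; exact hT
      filter_upwards [h1] with e he
      rintro ⟨e', he', h⟩
      injection h with _ h2
      exact he (h2 ▸ he')
    · apply Eventually.of_forall
      rintro e ⟨e', -, h⟩
      injection h with h1 _
      exact hij h1.symm
  · intro _
    refine ⟨i + 1, ?_⟩
    rintro j hj e ⟨e', -, h⟩
    injection h with h1 _
    omega

theorem XX_piece (i : ℕ) : IsOpen (range (pt i) : Set XX) := by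
  rw [XX_open]
  constructor
  · rintro j e0 ⟨e', h⟩
    injection h with h1 _
    subst h1
    exact Eventually.of_forall (fun e => ⟨e, rfl⟩)
  · rintro ⟨e, he⟩
    exact absurd he (by simp)

theorem XX_piece_compl (i : ℕ) : IsOpen ((range (pt i))ᶜ : Set XX) := by
  rw [XX_open]
  constructor
  · intro j e0 h0
    apply Eventually.of_forall
    rintro e ⟨e', h⟩
    injection h with h1 _
    subst h1
    exact h0 ⟨e0, rfl⟩
  · intro _
    refine ⟨i + 1, ?_⟩
    rintro j hj e ⟨e', h⟩
    injection h with h1 _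
    omega

theorem small_singleton {i : ℕ} (e : E i) : #({e} : Set (E i)) < cc i := by
  rw [Cardinal.mk_singleton]
  exact Cardinal.one_lt_aleph0.trans (aleph0_lt_cc i)

theorem XX_b_compl : IsOpen ({b}ᶜ : Set XX) := by
  rw [XX_open]
  constructor
  · intro j e0 _
    exact Eventually.of_forall (fun e h => by simp at h)
  · intro h
    exact absurd rfl h

instance : T1Space XX := by
  constructor
  intro x
  rw [← isOpen_compl_iff]
  cases x with
  | b => exact XX_b_compl
  | pt i e =>
    have := XX_compl {e} (small_singleton e)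
    rwa [image_singleton] at this

theorem tendsto_pt (i : ℕ) (e0 : E i) : Tendsto (pt i) (L i) (𝓝 (pt i e0)) := by
  rw [tendsto_nhds]
  intro U hU h0
  exact (XX_open.1 hU).1 i e0 h0

/-! ### a test space for irreducibility -/

structure TT : Type where
  l : Prop
  r : Prop

def subT : Set (Set TT) := {s | s = {p : TT | p.l} ∨ s = {p : TT | p.r}}

instance TTtop : TopologicalSpace TT := TopologicalSpace.generateFrom subT

theorem kk_TT : kk TT TTtop := by
  constructor
  · apply gen_t0 subT _ rfl
    rintro ⟨x1, x2⟩ ⟨y1, y2⟩ h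
    have h1 : x1 ↔ y1 := h {p : TT | p.l} (Or.inl rfl)
    have h2 : x2 ↔ y2 := h {p : TT | p.r} (Or.inr rfl)
    rw [propext h1, propext h2]
  · intro i f hf
    refine ⟨⟨∃ a, (f a).l, ∃ a, (f a).r⟩, ?_⟩
    apply gen subT _ rfl (L i)
    · rintro V (rfl | rfl) hV
      · obtain ⟨a, ha⟩ := hV
        have ho : IsOpen {p : TT | p.l} := TopologicalSpace.isOpen_generateFrom_of_mem (Or.inl rfl)
        exact hf a (ho.mem_nhds ha)
      · obtain ⟨a, ha⟩ := hV
        have ho : IsOpen {p : TT | p.r} := TopologicalSpace.isOpen_generateFrom_of_mem (Or.inr rfl)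
        exact hf a (ho.mem_nhds ha)
    · rintro V (rfl | rfl) a ha
      · exact ⟨a, ha⟩
      · exact ⟨a, ha⟩

theorem irr_of_det {X : Type} [TopologicalSpace X] (A : Set X) (h : KDet kk A) :
    IsIrreducible A := by
  have hpre : ∀ U V : Set X, IsOpen U → IsOpen V →
      ∃ y : TT, closure ((fun x => (⟨x ∈ U, x ∈ V⟩ : TT)) '' A) = closure {y} := by
    intro U V hU hV
    have hc : Continuous (fun x => (⟨x ∈ U, x ∈ V⟩ : TT)) := by
      apply continuous_generateFrom_iff.2
      rintro s (rfl | rfl)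
      · exact hU
      · exact hV
    exact (h TT kk_TT _ hc).exists
  have h1 : IsOpen {p : TT | p.l} := TopologicalSpace.isOpen_generateFrom_of_mem (Or.inl rfl)
  have h2 : IsOpen {p : TT | p.r} := TopologicalSpace.isOpen_generateFrom_of_mem (Or.inr rfl)
  constructor
  · obtain ⟨y, hy⟩ := hpre univ univ isOpen_univ isOpen_univ
    have h3 : y ∈ closure ((fun x => (⟨x ∈ (univ : Set X), x ∈ (univ : Set X)⟩ : TT)) '' A) := by
      rw [hy]; exact subset_closure rfl
    obtain ⟨z, -, ⟨x, hx, -⟩⟩ := mem_closure_iff.1 h3 univ isOpen_univ trivial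
    exact ⟨x, hx⟩
  · rintro U V hU hV ⟨x, hxA, hxU⟩ ⟨x', hxA', hxV⟩
    obtain ⟨y, hy⟩ := hpre U V hU hV
    have hy1 : y.l := by
      have h3 : (⟨x ∈ U, x ∈ V⟩ : TT) ∈ closure {y} := by
        rw [← hy]; exact subset_closure ⟨x, hxA, rfl⟩
      obtain ⟨z, hz1, hz2⟩ := mem_closure_iff.1 h3 _ h1 hxU
      rw [mem_singleton_iff] at hz2
      rw [hz2] at hz1
      exact hz1
    have hy2 : y.r := by
      have h3 : (⟨x' ∈ U, x' ∈ V⟩ : TT) ∈ closure {y} := by
        rw [← hy]; exact subset_closure ⟨x', hxA', rfl⟩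
      obtain ⟨z, hz1, hz2⟩ := mem_closure_iff.1 h3 _ h2 hxV
      rw [mem_singleton_iff] at hz2
      rw [hz2] at hz1
      exact hz1
    have h3 : y ∈ closure ((fun x => (⟨x ∈ U, x ∈ V⟩ : TT)) '' A) := by
      rw [hy]; exact subset_closure rfl
    obtain ⟨z, hz1, ⟨w, hw, rfl⟩⟩ := mem_closure_iff.1 h3 _ (h1.inter h2) ⟨hy1, hy2⟩
    exact ⟨w, hw, hz1⟩

/-! ### The space is determined -/

theorem irr_cases (A : Set XX) (hA : IsClosed A) (hi : IsIrreducible A) :
    (∃ x, A = {x}) ∨ ∃ i, A = range (pt i) := by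
  by_cases hb : b ∈ A
  · left
    refine ⟨b, ?_⟩
    apply Set.Subset.antisymm _ (singleton_subset_iff.2 hb)
    intro x hx
    cases x with
    | b => rfl
    | pt i e =>
      obtain ⟨z, -, hz1, hz2⟩ := hi.2 _ _ (XX_piece i) (XX_piece_compl i) ⟨pt i e, hx, e, rfl⟩
        ⟨b, hb, by rintro ⟨e', h⟩; exact absurd h (by simp)⟩
      exact absurd hz1 hz2
  · obtain ⟨x, hx⟩ := hi.1
    cases x with
    | b => exact absurd hx hb
    | pt i e0 =>
      have hsub : A ⊆ range (pt i) := by
        intro x' hx'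
        by_contra hcon
        obtain ⟨z, -, hz1, hz2⟩ := hi.2 _ _ (XX_piece i) (XX_piece_compl i) ⟨pt i e0, hx, e0, rfl⟩
          ⟨x', hx', hcon⟩
        exact absurd hz1 hz2
      by_cases hall : ∀ e, pt i e ∈ A
      · right
        refine ⟨i, Set.Subset.antisymm hsub ?_⟩
        rintro _ ⟨e, rfl⟩
        exact hall e
      · left
        push Not at hall
        obtain ⟨e1, he1⟩ := hall
        have hsm := (XX_open.1 hA.isOpen_compl).1 i e1 he1
        have hT : #({e | pt i e ∈ A} : Set (E i)) < cc i := by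
          have h1 : {e | pt i e ∈ Aᶜ} ∈ L i := hsm
          rw [mem_L] at h1
          have h2 : ({e | pt i e ∈ Aᶜ} : Set (E i))ᶜ = {e | pt i e ∈ A} := by
            ext e; simp
          rwa [h2] at h1
        refine ⟨pt i e0, ?_⟩
        apply Set.Subset.antisymm _ (singleton_subset_iff.2 hx)
        intro x' hx'
        obtain ⟨e, rfl⟩ := hsub hx'
        by_contra hne
        have hne' : e ≠ e0 := by
          rintro rfl
          exact hne rfl
        have hO : ∀ a : E i, IsOpen ((pt i '' ({e | pt i e ∈ A} \ {a}))ᶜ : Set XX) := by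
          intro a
          apply XX_compl
          exact (Cardinal.mk_le_mk_of_subset diff_subset).trans_lt hT
        have hin : ∀ a : E i, pt i a ∈ ((pt i '' ({e | pt i e ∈ A} \ {a}))ᶜ : Set XX) := by
          rintro a ⟨a', ⟨-, ha'⟩, h⟩
          injection h with _ h2
          exact ha' h2
        obtain ⟨z, hzA, hz1, hz2⟩ := hi.2 _ _ (hO e0) (hO e) ⟨_, hx, hin e0⟩ ⟨_, hx', hin e⟩
        obtain ⟨e', rfl⟩ := hsub hzA
        have h3 : e' = e0 := by
          by_contra h
          exact hz1 ⟨e', ⟨hzA, h⟩, rfl⟩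
        have h4 : e' = e := by
          by_contra h
          exact hz2 ⟨e', ⟨hzA, h⟩, rfl⟩
        exact hne' (h4.symm.trans h3)

theorem XX_determined : Determined kk XX := by
  intro A hA
  refine ⟨?_, irr_of_det A⟩
  intro hi Y tY hY f hf
  have h0 := hY.1
  have hex : ∃ y : Y, closure (f '' A) = closure {y} := by
    rcases irr_cases A hA hi with ⟨x, rfl⟩ | ⟨i, rfl⟩
    · exact ⟨f x, by rw [image_singleton]⟩
    · obtain ⟨y, hy⟩ := hY.2 i (fun e => f (pt i e))
        (fun a => (hf.tendsto _).comp (tendsto_pt i a))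
      refine ⟨y, ?_⟩
      rw [← range_comp]
      exact hy
  obtain ⟨y, hy⟩ := hex
  exact ⟨y, hy, fun z hz => t0_unique (by rw [← hz]; exact hy)⟩

/-! ### The target space -/

def YY : Type := {B : ∀ i, Option (Finset (E i)) // {i | B i = some ∅}.Finite}

def subY : Set (Set YY) := {s | (∃ i, s = {B | B.1 i = none}) ∨
  ∃ (i : ℕ) (T : Set (E i)), #T < cc i ∧ s = {B | ∀ S, B.1 i = some S → ∀ x ∈ S, x ∉ T}}

instance YYtop : TopologicalSpace YY := TopologicalSpace.generateFrom subY

theorem open_none (i : ℕ) : IsOpen {B : YY | B.1 i = none} :=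
  TopologicalSpace.isOpen_generateFrom_of_mem (Or.inl ⟨i, rfl⟩)

theorem open_miss (i : ℕ) (T : Set (E i)) (hT : #T < cc i) :
    IsOpen {B : YY | ∀ S, B.1 i = some S → ∀ x ∈ S, x ∉ T} :=
  TopologicalSpace.isOpen_generateFrom_of_mem (Or.inr ⟨i, T, hT, rfl⟩)

theorem YY_t0 : T0Space YY := by
  apply gen_t0 subY _ rfl
  intro B C h
  apply Subtype.ext
  funext i
  have hn := h _ (Or.inl ⟨i, rfl⟩)
  have hm : ∀ x : E i, (∀ S, B.1 i = some S → ∀ z ∈ S, z ∉ ({x} : Set (E i))) ↔
      (∀ S, C.1 i = some S → ∀ z ∈ S, z ∉ ({x} : Set (E i))) := fun x =>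
    h _ (Or.inr ⟨i, {x}, small_singleton x, rfl⟩)
  simp only [mem_ofPred_eq] at hn
  cases hB : B.1 i with
  | none => rw [hn.1 hB]
  | some S =>
    cases hC : C.1 i with
    | none =>
      have := hn.2 hC
      rw [hB] at this
      exact absurd this (by simp)
    | some S' =>
      congr 1
      ext x
      have h1 : x ∈ S ↔ ¬ (∀ S, B.1 i = some S → ∀ z ∈ S, z ∉ ({x} : Set (E i))) := by
        constructor
        · intro hx hall
          exact hall S hB x hx rfl
        · intro hnot
          by_contra hx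
          apply hnot
          intro S1 hS1 z hz hzx
          rw [hB] at hS1
          injection hS1 with hS1
          rw [mem_singleton_iff] at hzx
          subst hzx
          subst hS1
          exact hx hz
      have h2 : x ∈ S' ↔ ¬ (∀ S, C.1 i = some S → ∀ z ∈ S, z ∉ ({x} : Set (E i))) := by
        constructor
        · intro hx hall
          exact hall S' hC x hx rfl
        · intro hnot
          by_contra hx
          apply hnot
          intro S1 hS1 z hz hzx
          rw [hC] at hS1
          injection hS1 with hS1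
          rw [mem_singleton_iff] at hzx
          subst hzx
          subst hS1
          exact hx hz
      rw [h1, h2, hm x]

theorem nonempty_E (i : ℕ) : Nonempty (E i) := by
  obtain ⟨s, -⟩ := (L i).nonempty_of_mem (Filter.univ_mem)
  exact ⟨s⟩

theorem kk_YY : kk YY YYtop := by
  classical
  refine ⟨YY_t0, ?_⟩
  intro j g hg
  obtain ⟨a0⟩ := nonempty_E j
  have hW : ∀ i a, (g a).1 i = none → ∀ᶠ c in L j, (g c).1 i = none := fun i a ha =>
    hg a ((open_none i).mem_nhds ha)
  have hV : ∀ (i : ℕ) (T : Set (E i)), #T < cc i → ∀ a,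
      (∀ S, (g a).1 i = some S → ∀ x ∈ S, x ∉ T) →
      ∀ᶠ c in L j, ∀ S, (g c).1 i = some S → ∀ x ∈ S, x ∉ T := fun i T hT a ha =>
    hg a ((open_miss i T hT).mem_nhds ha)
  let sp : ∀ i, E j → Finset (E i) := fun i a => ((g a).1 i).getD ∅
  have hsp : ∀ i, (∀ a, (g a).1 i ≠ none) → ∀ a, (g a).1 i = some (sp i a) := by
    intro i hi a
    cases h : (g a).1 i with
    | none => exact absurd h (hi a)
    | some S => simp [sp, h]
  have hV' : ∀ (i : ℕ), (∀ a, (g a).1 i ≠ none) → ∀ (T : Set (E i)), #T < cc i → ∀ a,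
      (∀ x ∈ sp i a, x ∉ T) → ∀ᶠ c in L j, ∀ x ∈ sp i c, x ∉ T := by
    intro i hi T hT a ha
    have h1 := hV i T hT a (by
      intro S hS
      rw [hsp i hi a] at hS
      injection hS with hS
      subst hS
      exact ha)
    filter_upwards [h1] with c hc
    exact hc _ (hsp i hi c)
  have claim : ∀ (i : ℕ), (∀ a, (g a).1 i ≠ none) → ∀ (T : Set (E i)), #T < cc i →
      (∀ x ∈ T, ∃ a, x ∉ sp i a) → ∃ a, ∀ x ∈ sp i a, x ∉ T := by
    intro i hi T hT hTx
    by_contra hcon
    push Not at hcon
    let m : E j → ℕ := fun a => ((sp i a).filter (fun x => x ∈ T)).card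
    obtain ⟨_, ⟨a1, rfl⟩, hmin⟩ := WellFounded.has_min Nat.lt_wfRel.wf (range m) ⟨_, a0, rfl⟩
    have h1 := hV' i hi (T \ ↑(sp i a1)) ((Cardinal.mk_le_mk_of_subset diff_subset).trans_lt hT) a1
      (fun x hx hx2 => hx2.2 hx)
    obtain ⟨x0, hx0, hx0T⟩ := hcon a1
    obtain ⟨a2, ha2⟩ := hTx x0 hx0T
    have h2 := hV' i hi {x0} (small_singleton x0) a2 (by
      intro x hx hxx
      rw [mem_singleton_iff] at hxx
      subst hxx
      exact ha2 hx)
    obtain ⟨c, hc1, hc2⟩ := (h1.and h2).exists
    have hsub : (sp i c).filter (fun x => x ∈ T) ⊆ (sp i a1).filter (fun x => x ∈ T) := by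
      intro x hx
      rw [Finset.mem_filter] at hx ⊢
      refine ⟨?_, hx.2⟩
      by_contra hxa
      exact hc1 x hx.1 ⟨hx.2, hxa⟩
    have heq := Finset.eq_of_subset_of_card_le hsub (not_lt.1 (hmin (m c) ⟨c, rfl⟩))
    have h3 : x0 ∈ (sp i c).filter (fun x => x ∈ T) := by
      rw [heq, Finset.mem_filter]; exact ⟨hx0, hx0T⟩
    exact hc2 x0 (Finset.mem_filter.1 h3).1 rfl
  let Sinf : ∀ i, Finset (E i) := fun i => (sp i a0).filter (fun x => ∀ a, x ∈ sp i a)
  have hSinf : ∀ i x, x ∈ Sinf i ↔ ∀ a, x ∈ sp i a := by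
    intro i x
    simp only [Sinf, Finset.mem_filter]
    exact ⟨fun h => h.2, fun h => ⟨h a0, h⟩⟩
  let Binf : ∀ i, Option (Finset (E i)) := fun i =>
    if ∃ a, (g a).1 i = none then none else some (Sinf i)
  have hBn : ∀ i, Binf i = none ↔ ∃ a, (g a).1 i = none := by
    intro i
    simp only [Binf]
    split_ifs with h
    · exact ⟨fun _ => h, fun _ => rfl⟩
    · exact ⟨fun h' => absurd h' (by simp), fun h' => absurd h' h⟩
  have hBs : ∀ i S, Binf i = some S → (∀ a, (g a).1 i ≠ none) ∧ S = Sinf i := by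
    intro i S hS
    by_cases h : ∃ a, (g a).1 i = none
    · rw [(hBn i).2 h] at hS
      exact absurd hS (by simp)
    · simp only [Binf, if_neg h] at hS
      injection hS with hS
      push Not at h
      exact ⟨h, hS.symm⟩
  have hfin : {i | Binf i = some ∅}.Finite := by
    by_contra hinf
    have hinf' : {i | Binf i = some ∅}.Infinite := hinf
    have hall : ∀ i, Binf i = some ∅ → i ≠ j → ∀ᶠ c in L j, (g c).1 i = some ∅ := by
      intro i hi hij
      obtain ⟨hp, hS⟩ := hBs i ∅ hi
      have hx : ∀ x : E i, ∃ a, x ∉ sp i a := by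
        intro x
        by_contra hcon
        push Not at hcon
        have := (hSinf i x).2 hcon
        rw [← hS] at this
        exact absurd this (Finset.notMem_empty x)
      have hempty : ∀ᶠ c in L j, ∀ x : E i, x ∉ sp i c := by
        rcases lt_or_gt_of_ne hij with hlt | hgt
        · rw [eventually_cardinal_forall (by rw [mk_E]; exact cc_lt hlt)]
          intro x
          obtain ⟨a, ha⟩ := hx x
          have h2 := hV' i hp {x} (small_singleton x) a (by
            intro z hz hzx
            rw [mem_singleton_iff] at hzx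
            subst hzx
            exact ha hz)
          filter_upwards [h2] with c hc hxc
          exact hc x hxc rfl
        · obtain ⟨e0⟩ := nonempty_E i
          let xs : E j → E i := fun c => if h : (sp i c).Nonempty then h.choose else e0
          have hxs : ∀ c, (sp i c).Nonempty → xs c ∈ sp i c := by
            intro c hc
            simp only [xs, dif_pos hc]
            exact hc.choose_spec
          have hT : #(range xs) < cc i := by
            refine (Cardinal.mk_range_le).trans_lt ?_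
            rw [mk_E]; exact cc_lt hgt
          obtain ⟨a, ha⟩ := claim i hp (range xs) hT (fun x _ => hx x)
          have h2 := hV' i hp (range xs) hT a ha
          filter_upwards [h2] with c hc x hxc
          exact hc (xs c) (hxs c ⟨x, hxc⟩) ⟨c, rfl⟩
      filter_upwards [hempty] with c hc
      rw [hsp i hp c]
      congr 1
      exact Finset.eq_empty_of_forall_notMem hc
    have hall2 : ∀ᶠ c in L j, ∀ i : ℕ, Binf i = some ∅ → i ≠ j → (g c).1 i = some ∅ := by
      rw [eventually_cardinal_forall (by rw [Cardinal.mk_nat]; exact aleph0_lt_cc j)]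
      intro i
      by_cases h : Binf i = some ∅ ∧ i ≠ j
      · filter_upwards [hall i h.1 h.2] with c hc _ _
        exact hc
      · exact Eventually.of_forall (fun c h1 h2 => absurd ⟨h1, h2⟩ h)
    obtain ⟨c, hc⟩ := hall2.exists
    apply hinf'
    apply ((g c).2.union (Set.finite_singleton j)).subset
    intro i hi
    by_cases hij : i = j
    · exact Or.inr hij
    · exact Or.inl (hc i hi hij)
  refine ⟨⟨Binf, hfin⟩, ?_⟩
  apply gen subY _ rfl (L j)
  · rintro V (⟨i, rfl⟩ | ⟨i, T, hT, rfl⟩) hB
    · obtain ⟨a, ha⟩ := (hBn i).1 hB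
      exact hW i a ha
    · by_cases h : ∃ a, (g a).1 i = none
      · obtain ⟨a, ha⟩ := h
        filter_upwards [hW i a ha] with c hc S hS
        rw [hc] at hS
        exact absurd hS (by simp)
      · have hBi : Binf i = some (Sinf i) := by simp only [Binf, if_neg h]
        push Not at h
        have h1 := hB (Sinf i) hBi
        obtain ⟨a, ha⟩ := claim i h T hT (by
          intro x hxT
          by_contra hcon
          push Not at hcon
          exact h1 x ((hSinf i x).2 hcon) hxT)
        exact hV i T hT a (by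
          intro S hS
          rw [hsp i h a] at hS
          injection hS with hS
          subst hS
          exact ha)
  · rintro V (⟨i, rfl⟩ | ⟨i, T, hT, rfl⟩) a ha
    · exact (hBn i).2 ⟨a, ha⟩
    · intro S hS x hx
      obtain ⟨h1, h2⟩ := hBs i S hS
      subst h2
      exact ha _ (hsp i h1 a) x ((hSinf i x).1 hx a)

/-! ### The map from the Smyth power space -/

theorem fin_part (K : Set XX) (hK : IsCompact K) (i : ℕ) : {e | pt i e ∈ K}.Finite := by
  by_contra hinf
  have hinf' : {e | pt i e ∈ K}.Infinite := hinf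
  let t := hinf'.natEmbedding
  let O : ℕ → Set XX := fun n => (pt i '' {e | ∃ m, n ≤ m ∧ e = (t m : E i)})ᶜ
  have hO : ∀ n, IsOpen (O n) := by
    intro n
    apply XX_compl
    refine lt_of_le_of_lt ?_ (aleph0_lt_cc i)
    rw [Cardinal.le_aleph0_iff_set_countable]
    apply (Set.countable_range (fun m => (t m : E i))).mono
    rintro e ⟨m, -, rfl⟩
    exact ⟨m, rfl⟩
  have hmono : ∀ n m, n ≤ m → O n ⊆ O m := by
    intro n m hnm x hx
    rintro ⟨e, ⟨k, hk, rfl⟩, rfl⟩
    exact hx ⟨_, ⟨k, hnm.trans hk, rfl⟩, rfl⟩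
  obtain ⟨n, hn⟩ := hK.elim_directed_cover O hO (by
    intro x _
    rw [mem_iUnion]
    by_cases hx : ∃ m, x = pt i (t m)
    · obtain ⟨m, rfl⟩ := hx
      refine ⟨m + 1, ?_⟩
      rintro ⟨e, ⟨k, hk, rfl⟩, h⟩
      injection h with _ h2
      have h3 : k = m := t.injective (Subtype.ext h2)
      omega
    · refine ⟨0, ?_⟩
      rintro ⟨e, ⟨k, hk, rfl⟩, h⟩
      exact hx ⟨k, h.symm⟩) (by
    intro n m
    exact ⟨max n m, hmono _ _ (le_max_left _ _), hmono _ _ (le_max_right _ _)⟩)
  exact hn (t n).2 ⟨_, ⟨n, le_rfl, rfl⟩, rfl⟩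

open Classical in
/-- the map -/
def hh (K : PS XX) : YY := ⟨fun i =>
  if ∃ e, pt i e ∈ K.1 then some (fin_part K.1 K.2.2.1 i).toFinset else none, by
    have : {i | (if ∃ e, pt i e ∈ K.1 then some (fin_part K.1 K.2.2.1 i).toFinset
        else none : Option (Finset (E i))) = some ∅} = ∅ := by
      rw [Set.eq_empty_iff_forall_notMem]
      intro i hi
      rw [mem_ofPred_eq] at hi
      split_ifs at hi with h
      obtain ⟨e, he⟩ := h
      injection hi with hi
      have h1 : e ∈ (fin_part K.1 K.2.2.1 i).toFinset := by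
        rw [Set.Finite.mem_toFinset]; exact he
      rw [hi] at h1
      exact absurd h1 (Finset.notMem_empty e)
    rw [this]
    exact Set.finite_empty⟩

theorem hh_none (K : PS XX) (i : ℕ) : (hh K).1 i = none ↔ ¬ ∃ e, pt i e ∈ K.1 := by
  simp only [hh]
  split_ifs with h
  · exact ⟨fun h' => absurd h' (by simp), fun h' => absurd h h'⟩
  · exact ⟨fun _ => h, fun _ => rfl⟩

theorem hh_some (K : PS XX) (i : ℕ) (S : Finset (E i)) (h : (hh K).1 i = some S) (e : E i) :
    e ∈ S ↔ pt i e ∈ K.1 := by
  by_cases h' : ∃ e, pt i e ∈ K.1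
  · simp only [hh, if_pos h'] at h
    injection h with h
    subst h
    rw [Set.Finite.mem_toFinset]
    rfl
  · rw [(hh_none K i).2 h'] at h
    exact absurd h (by simp)

theorem hh_cont : Continuous hh := by
  apply continuous_generateFrom_iff.2
  rintro s (⟨i, rfl⟩ | ⟨i, T, hT, rfl⟩)
  · have h1 : hh ⁻¹' {B | B.1 i = none} = {K : PS XX | K.1 ⊆ (range (pt i))ᶜ} := by
      ext K
      rw [mem_preimage, mem_ofPred_eq, hh_none, mem_ofPred_eq]
      constructor
      · rintro h x hx ⟨e, rfl⟩
        exact h ⟨e, hx⟩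
      · rintro h ⟨e, he⟩
        exact h he ⟨e, rfl⟩
    rw [h1]
    exact TopologicalSpace.isOpen_generateFrom_of_mem ⟨_, XX_piece_compl i, rfl⟩
  · have h1 : hh ⁻¹' {B | ∀ S, B.1 i = some S → ∀ x ∈ S, x ∉ T} =
        {K : PS XX | K.1 ⊆ (pt i '' T)ᶜ} := by
      ext K
      rw [mem_preimage, mem_ofPred_eq, mem_ofPred_eq]
      constructor
      · rintro h x hx ⟨e, heT, rfl⟩
        cases hS : (hh K).1 i with
        | none => exact (hh_none K i).1 hS ⟨e, hx⟩
        | some S => exact h S hS e ((hh_some K i S hS e).2 hx) heT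
      · intro h S hS e heS heT
        exact h ((hh_some K i S hS e).1 heS) ⟨e, heT, rfl⟩
    rw [h1]
    exact TopologicalSpace.isOpen_generateFrom_of_mem ⟨_, XX_compl T hT, rfl⟩

/-- the compact sets K_a -/
def Ka (a : ∀ i, E i) : PS XX := ⟨insert b (range (fun n => pt n (a n))), by
  refine ⟨⟨b, mem_insert _ _⟩, ?_, ?_⟩
  · apply Filter.Tendsto.isCompact_insert_range
    rw [tendsto_nhds]
    intro U hU hb
    obtain ⟨n, hn⟩ := (XX_open.1 hU).2 hb
    filter_upwards [eventually_ge_atTop n] with m hm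
    exact hn m hm _
  · intro x hx y hxy
    rw [closure_singleton, mem_singleton_iff] at hxy
    exact hxy ▸ hx⟩

theorem mem_Ka (a : ∀ i, E i) (i : ℕ) (e : E i) : pt i e ∈ (Ka a).1 ↔ e = a i := by
  constructor
  · rintro (h | ⟨n, h⟩)
    · exact absurd h (by simp)
    · injection h with h1 h2
      subst h1
      exact (eq_of_heq h2).symm
  · rintro rfl
    exact Or.inr ⟨i, rfl⟩

theorem PS_basis {X : Type} [TopologicalSpace X] (K : PS X) (U : Set (PS X)) (hU : IsOpen U)
    (hK : K ∈ U) : ∃ W : Set X, IsOpen W ∧ K.1 ⊆ W ∧ ∀ K' : PS X, K'.1 ⊆ W → K' ∈ U := by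
  have hb := TopologicalSpace.isTopologicalBasis_of_subbasis_of_inter
    (α := PS X) (r := boxes X) rfl (by
      rintro _ ⟨U, hU, rfl⟩ _ ⟨V, hV, rfl⟩
      refine ⟨U ∩ V, hU.inter hV, ?_⟩
      ext K
      simp only [mem_inter_iff, mem_ofPred_eq, subset_inter_iff])
  obtain ⟨v, hv, hKv, hvU⟩ := hb.exists_subset_of_mem_open hK hU
  rcases hv with rfl | ⟨W, hW, rfl⟩
  · exact ⟨univ, isOpen_univ, subset_univ _, fun K' _ => hvU trivial⟩
  · exact ⟨W, hW, hKv, fun K' hK' => hvU hK'⟩

theorem irr_family : IsIrreducible (range Ka) := by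
  have hne : ∀ i, Nonempty (E i) := nonempty_E
  constructor
  · exact ⟨_, ⟨fun i => (hne i).some, rfl⟩⟩
  · rintro U V hU hV ⟨_, ⟨a, rfl⟩, haU⟩ ⟨_, ⟨a', rfl⟩, haV⟩
    obtain ⟨W, hW, haW, hWU⟩ := PS_basis _ U hU haU
    obtain ⟨W', hW', haW', hWV⟩ := PS_basis _ V hV haV
    have hex : ∀ i, ∃ e : E i, pt i e ∈ W ∧ pt i e ∈ W' := by
      intro i
      have h1 := (XX_open.1 hW).1 i (a i) (haW ((mem_Ka a i _).2 rfl))
      have h2 := (XX_open.1 hW').1 i (a' i) (haW' ((mem_Ka a' i _).2 rfl))
      exact (h1.and h2).exists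
    choose c hc1 hc2 using hex
    refine ⟨Ka c, ⟨c, rfl⟩, hWU _ ?_, hWV _ ?_⟩
    · rintro x (rfl | ⟨n, rfl⟩)
      · exact haW (mem_insert _ _)
      · exact hc1 n
    · rintro x (rfl | ⟨n, rfl⟩)
      · exact haW' (mem_insert _ _)
      · exact hc2 n

theorem not_det : ¬ KDet kk (closure (range Ka)) := by
  intro h
  obtain ⟨y, hy, -⟩ := h YY kk_YY hh hh_cont
  have hall : ∀ i, y.1 i = some ∅ := by
    intro i
    cases hyi : y.1 i with
    | none =>
      exfalso
      have h1 : y ∈ closure (hh '' closure (range Ka)) := by rw [hy]; exact subset_closure rfl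
      obtain ⟨z, hz1, ⟨K, hK, rfl⟩⟩ := mem_closure_iff.1 h1 _ (open_none i) hyi
      obtain ⟨_, hz2, ⟨a, rfl⟩⟩ := mem_closure_iff.1 hK _ ((open_none i).preimage hh_cont) hz1
      exact (hh_none (Ka a) i).1 hz2 ⟨a i, (mem_Ka a i _).2 rfl⟩
    | some S =>
      congr 1
      apply Finset.eq_empty_of_forall_notMem
      intro x hx
      classical
      obtain ⟨x', hx'⟩ : ∃ x' : E i, x' ≠ x := by
        have h1 : ({x}ᶜ : Set (E i)) ∈ L i := by
          rw [mem_L, compl_compl]; exact small_singleton x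
        obtain ⟨x', hx'⟩ := (L i).nonempty_of_mem h1
        exact ⟨x', hx'⟩
      let a : ∀ k, E k := Function.update (fun k => (nonempty_E k).some) i x'
      have ha : a i = x' := Function.update_self _ _ _
      have h2 : hh (Ka a) ∈ {B : YY | ∀ S, B.1 i = some S → ∀ z ∈ S, z ∉ ({x} : Set (E i))} := by
        intro S' hS' z hz hzx
        rw [mem_singleton_iff] at hzx
        subst hzx
        have h3 := (mem_Ka a i _).1 ((hh_some _ i S' hS' _).1 hz)
        rw [ha] at h3
        exact hx' h3.symm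
      have h4 : hh (Ka a) ∈ closure {y} := by
        rw [← hy]
        exact subset_closure ⟨_, subset_closure ⟨a, rfl⟩, rfl⟩
      obtain ⟨z, hz1, hz2⟩ := mem_closure_iff.1 h4 _ (open_miss i {x} (small_singleton x)) h2
      rw [mem_singleton_iff] at hz2
      subst hz2
      exact hz1 S hyi x hx rfl
  have h5 := y.2
  have h6 : {i | y.1 i = some ∅} = (Set.univ : Set ℕ) := Set.eq_univ_of_forall hall
  rw [h6] at h5
  exact Set.infinite_univ h5

end

/-- There are an adequate Smyth category and a determined `T0` space `X` for which the Smyth power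
space has an irreducible closed subset that is not determined. -/
theorem result : ∃ 𝒦 : SpaceClass, IsCategory 𝒦 ∧ Adequate 𝒦 ∧ SmythCategory 𝒦 ∧
    ∃ (X : Type) (_ : TopologicalSpace X), T0Space X ∧ Determined 𝒦 X ∧
      ∃ 𝒜 : Set (PS X), IsClosed 𝒜 ∧ IsIrreducible 𝒜 ∧ ¬ KDet 𝒦 𝒜 :=
  ⟨kk, kk_category, kk_adequate, kk_smyth, XX, inferInstance, inferInstance, XX_determined,
    closure (range Ka), isClosed_closure, irr_family.closure, not_det⟩

end Pool.Agent.Results.MP_360cb4_gt.NotDetermined
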